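import Mathlib
import Pool.Agent.Work.MP_4ec80c_gt.Bd.B01

open Set Filter Topology MeasureTheory
open scoped ContDiff Manifold

namespace W4ec

local instance : Fact (Module.finrank ℝ ℂ = 1 + 1) := finrank_real_complex_fact'

/-- the inclusion of the circle is smooth -/
theorem cm_coe : ContMDiff (𝓡 1) 𝓘(ℝ, ℂ) ((⊤ : ℕ∞) : WithTop ℕ∞) (fun z : Circle => (z : ℂ)) :=
  contMDiff_coe_sphere

/-- the argument is smooth near `1` -/
theorem cm_arg {z : Circle} (hz : (z : ℂ) ∈ Complex.slitPlane) :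
    ContMDiffAt (𝓡 1) 𝓘(ℝ, ℝ) ((⊤ : ℕ∞) : WithTop ℕ∞) (fun z : Circle => Complex.arg (z : ℂ)) z := by
  have h1 : ContDiffAt ℝ ((⊤ : ℕ∞) : WithTop ℕ∞) (fun w : ℂ => (Complex.log w).im) (z : ℂ) :=
    Complex.imCLM.contDiff.contDiffAt.comp _ ((Complex.contDiffAt_log hz).restrict_scalars ℝ)
  have h2 : ContMDiffAt 𝓘(ℝ, ℂ) 𝓘(ℝ, ℝ) ((⊤ : ℕ∞) : WithTop ℕ∞)
      (fun w : ℂ => (Complex.log w).im) (z : ℂ) := h1.contMDiffAt
  have h3 := h2.comp z (cm_coe z)
  have h4 : (fun z : Circle => Complex.arg (z : ℂ)) =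
      ((fun w : ℂ => (Complex.log w).im) ∘ fun z : Circle => (z : ℂ)) := by
    funext z
    simp [Complex.log_im]
  rw [h4]
  exact h3

/-- the local angle around `w` -/
noncomputable def la (w : Circle) (x₀ : ℝ) (z : Circle) : ℝ := x₀ + Complex.arg ((z * w⁻¹ : Circle) : ℂ)

theorem exp_la {w : Circle} {x₀ : ℝ} (hw : Circle.exp x₀ = w) (z : Circle) :
    Circle.exp (la w x₀ z) = z := by
  unfold la
  rw [Circle.exp_add, hw, Circle.exp_arg, mul_comm z, mul_inv_cancel_left]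

theorem la_smooth (w : Circle) (x₀ : ℝ) :
    ContMDiffAt (𝓡 1) 𝓘(ℝ, ℝ) ((⊤ : ℕ∞) : WithTop ℕ∞) (la w x₀) w := by
  have h1 : ContMDiffAt (𝓡 1) (𝓡 1) ((⊤ : ℕ∞) : WithTop ℕ∞) (fun z : Circle => z * w⁻¹) w :=
    (contMDiff_mul_right (a := w⁻¹)).contMDiffAt
  have h2 : (((w * w⁻¹ : Circle) : Circle) : ℂ) ∈ Complex.slitPlane := by
    rw [mul_inv_cancel]
    simp
  have h3 := (cm_arg h2).comp w h1
  have h4 : ContMDiffAt 𝓘(ℝ, ℝ) 𝓘(ℝ, ℝ) ((⊤ : ℕ∞) : WithTop ℕ∞) (fun t : ℝ => x₀ + t)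
      (Complex.arg ((w * w⁻¹ : Circle) : ℂ)) :=
    (contDiff_const.add contDiff_id).contMDiff.contMDiffAt
  exact h4.comp w h3

/-- if `c` is continuous at `x` and equals `w` there, then lifts agree with the local angle -/
theorem lift_eq_la {F : ℝ → ℝ} (hF : Continuous F) {f : Circle → Circle}
    (hf : ∀ x, f (Circle.exp x) = Circle.exp (F x)) (x₀ : ℝ) :
    F =ᶠ[𝓝 x₀] fun x => la (f (Circle.exp x₀)) (F x₀) (f (Circle.exp x)) := by
  have h1 : ∀ᶠ x in 𝓝 x₀, |F x - F x₀| < Real.pi := by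
    have h2 : ContinuousAt (fun x => |F x - F x₀|) x₀ := by fun_prop
    have h3 : (fun x => |F x - F x₀|) x₀ < Real.pi := by
      simp [Real.pi_pos]
    exact h2.eventually_lt continuousAt_const h3
  filter_upwards [h1] with x hx
  unfold la
  rw [hf, hf, ← Circle.exp_neg, ← Circle.exp_add, Circle.arg_exp]
  · ring
  · rw [abs_lt] at hx
    linarith [hx.1]
  · rw [abs_lt] at hx
    linarith [hx.2]

theorem contDiff_lift {F : ℝ → ℝ} (hF : Continuous F) {f : Circle → Circle}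
    (hfs : ContMDiff (𝓡 1) (𝓡 1) ((⊤ : ℕ∞) : WithTop ℕ∞) f)
    (hf : ∀ x, f (Circle.exp x) = Circle.exp (F x)) : ContDiff ℝ ∞ F := by
  rw [contDiff_iff_contDiffAt]
  intro x₀
  have h1 : ContMDiffAt 𝓘(ℝ, ℝ) 𝓘(ℝ, ℝ) ((⊤ : ℕ∞) : WithTop ℕ∞)
      (fun x => la (f (Circle.exp x₀)) (F x₀) (f (Circle.exp x))) x₀ := by
    have h2 := (la_smooth (f (Circle.exp x₀)) (F x₀)).comp x₀
      ((hfs.comp contMDiff_circleExp).contMDiffAt (x := x₀))
    exact h2
  exact (h1.contDiffAt).congr_of_eventuallyEq (lift_eq_la hF hf x₀)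


/-- lifts of diffeomorphisms are smooth with positive derivative -/
theorem SI_lift {F : ℝ → ℝ} (hF : Continuous F) (hFm : StrictMono F)
    (f : Diffeomorph (𝓡 1) (𝓡 1) Circle Circle ((⊤ : ℕ∞) : WithTop ℕ∞))
    (hf : ∀ x : ℝ, f (Circle.exp x) = Circle.exp (F x)) : SI F := by
  have hs := contDiff_lift hF f.contMDiff hf
  refine ⟨hs, ?_⟩
  intro x₀
  have hd : HasDerivAt F (deriv F x₀) x₀ := (hs.differentiable (by simp) x₀).hasDerivAt
  have hnn : 0 ≤ deriv F x₀ := hFm.monotone.deriv_nonneg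
  -- the local inverse
  have h0 : f.symm (Circle.exp (F x₀)) = Circle.exp x₀ := by
    rw [← hf, f.symm_apply_apply]
  set S : ℝ → ℝ := fun y => la (Circle.exp x₀) x₀ (f.symm (Circle.exp y)) with hS
  have hSs : ContDiffAt ℝ ∞ S (F x₀) := by
    have h1 : ContMDiffAt (𝓡 1) 𝓘(ℝ, ℝ) ((⊤ : ℕ∞) : WithTop ℕ∞) (la (Circle.exp x₀) x₀)
        (f.symm (Circle.exp (F x₀))) := by
      rw [h0]
      exact la_smooth _ _
    have h2 := h1.comp (F x₀)
      ((f.symm.contMDiff.comp contMDiff_circleExp).contMDiffAt (x := F x₀))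
    exact h2.contDiffAt
  have h2 : (fun x => S (F x)) =ᶠ[𝓝 x₀] fun x => x := by
    have h3 := lift_eq_la (F := fun x => x) continuous_id (f := fun z => z)
      (fun x => rfl) x₀
    filter_upwards [h3] with x hx
    rw [hS]
    simp only
    rw [← hf, f.symm_apply_apply]
    exact hx.symm
  have h4 : HasDerivAt S (deriv S (F x₀)) (F x₀) :=
    (hSs.differentiableAt (by simp)).hasDerivAt
  have h5 : HasDerivAt (fun x => S (F x)) (deriv S (F x₀) * deriv F x₀) x₀ := h4.comp x₀ hd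
  have h6 : HasDerivAt (fun x : ℝ => x) (deriv S (F x₀) * deriv F x₀) x₀ :=
    h5.congr_of_eventuallyEq h2.symm
  have h7 := h6.unique (hasDerivAt_id' x₀)
  rcases hnn.lt_or_eq with h | h
  · exact h
  · rw [← h, mul_zero] at h7
    exact absurd h7 (by norm_num)

theorem lift_period {F : ℝ → ℝ} (hF : Continuous F) (hFm : StrictMono F) {f : Circle → Circle}
    (hinj : Function.Injective f) (hf : ∀ x, f (Circle.exp x) = Circle.exp (F x)) (x : ℝ) :
    F (x + 2 * Real.pi) = F x + 2 * Real.pi := by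
  have hpi := Real.pi_pos
  have h1 : Circle.exp (F (x + 2 * Real.pi)) = Circle.exp (F x) := by
    rw [← hf, ← hf, Circle.exp_add_two_pi]
  rw [Circle.exp_eq_exp] at h1
  obtain ⟨m, hm⟩ := h1
  have h2 : F x < F (x + 2 * Real.pi) := hFm (by linarith)
  have h3 : 0 < m := by
    rw [hm] at h2
    have h4 : (0 : ℝ) < m * (2 * Real.pi) := by linarith
    have h5 : (0 : ℝ) < m := by
      by_contra hc
      push Not at hc
      have := mul_nonpos_of_nonpos_of_nonneg hc (by linarith : (0:ℝ) ≤ 2 * Real.pi)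
      linarith
    exact_mod_cast h5
  have h4 : ¬ 1 < m := by
    intro h5
    have h6 : F x + 2 * Real.pi < F (x + 2 * Real.pi) := by
      rw [hm]
      have h7 : (2 : ℝ) ≤ m := by exact_mod_cast h5
      nlinarith
    have h7 : F x + 2 * Real.pi ∈ Ioo (F x) (F (x + 2 * Real.pi)) := ⟨by linarith, h6⟩
    obtain ⟨y, hy, hy2⟩ := intermediate_value_Ioo (by linarith : x ≤ x + 2 * Real.pi)
      hF.continuousOn h7
    have h8 : f (Circle.exp y) = f (Circle.exp x) := by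
      rw [hf, hf, hy2, Circle.exp_add_two_pi]
    have h9 := hinj h8
    rw [Circle.exp_eq_exp] at h9
    obtain ⟨l, hl⟩ := h9
    have h10 : (0 : ℝ) < l * (2 * Real.pi) := by linarith [hy.1]
    have h11 : l * (2 * Real.pi) < 2 * Real.pi := by linarith [hy.2]
    have h12 : (0 : ℝ) < l := by
      by_contra hc
      push Not at hc
      have := mul_nonpos_of_nonpos_of_nonneg hc (by linarith : (0:ℝ) ≤ 2 * Real.pi)
      linarith
    have h13 : (0 : ℤ) < l := by exact_mod_cast h12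
    have h14 : (1 : ℝ) ≤ l := by exact_mod_cast h13
    nlinarith
  have h5 : m = 1 := by omega
  rw [hm, h5]
  simp

/-- the rescaled lift is in `Dg` -/
theorem exists_Dg_lift {F : ℝ → ℝ} (hF : Continuous F) (hFm : StrictMono F)
    (f : Diffeomorph (𝓡 1) (𝓡 1) Circle Circle ((⊤ : ℕ∞) : WithTop ℕ∞))
    (hf : ∀ x : ℝ, f (Circle.exp x) = Circle.exp (F x)) :
    ∃ E ∈ Dg, (∀ x, E (x + 1) = E x + 1) ∧
      ∀ x : ℝ, f (Circle.exp (2 * Real.pi * x)) = Circle.exp (2 * Real.pi * E x) := by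
  have hpi := Real.pi_pos
  have h1 := SI_lift hF hFm f hf
  have h2 := lift_period hF hFm f.injective hf
  have h3 : SI (fun x => (1 / (2 * Real.pi)) * F (2 * Real.pi * x)) := by
    have h4 := (SI.affine (a := 1 / (2 * Real.pi)) (b := 0) (by positivity)).comp
      (h1.comp (SI.affine (a := 2 * Real.pi) (b := 0) (by positivity)))
    simpa using h4
  have h4 : ∀ x, (fun x => (1 / (2 * Real.pi)) * F (2 * Real.pi * x)) (x + 1) =
      (fun x => (1 / (2 * Real.pi)) * F (2 * Real.pi * x)) x + 1 := by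
    intro x
    simp only
    rw [mul_add, mul_one, h2]
    field_simp
  set W : ℝ → ℝ := fun x => (1 / (2 * Real.pi)) * F (2 * Real.pi * x) with hW
  have h5 : ∀ n : ℕ, W n = W 0 + n := by
    intro n
    induction n with
    | zero => simp
    | succ n ih => push_cast; rw [h4, ih]; ring
  have h6 : ∀ n : ℕ, W (-n) = W 0 - n := by
    intro n
    induction n with
    | zero => simp
    | succ n ih =>
      have := h4 (-((n + 1 : ℕ) : ℝ))
      have h7 : (-((n + 1 : ℕ) : ℝ)) + 1 = -(n : ℝ) := by push_cast; ring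
      rw [h7, ih] at this
      rw [eq_sub_iff_add_eq]
      push_cast at this ⊢
      linarith
  have hsurj : Function.Surjective W := by
    intro y
    obtain ⟨n, hn⟩ := exists_nat_gt (|y - W 0|)
    rw [abs_lt] at hn
    apply mem_range_of_exists_le_of_exists_ge h3.continuous
    · exact ⟨-n, by rw [h6]; linarith [hn.1]⟩
    · exact ⟨n, by rw [h5]; linarith [hn.2]⟩
  obtain ⟨E, hE, hE2⟩ := h3.exists_Dg hsurj
  refine ⟨E, hE, ?_, ?_⟩
  · intro x
    rw [hE2, hE2]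
    exact h4 x
  · intro x
    rw [hf, hE2, hW]
    congr 1
    simp only
    field_simp


theorem add_int {G : ℝ → ℝ} (hG : ∀ x, G (x + 1) = G x + 1) (x : ℝ) (m : ℤ) :
    G (x + m) = G x + m := by
  induction m using Int.induction_on with
  | zero => simp
  | succ n ih =>
    have h1 : x + ((n : ℤ) + 1 : ℤ) = (x + (n : ℤ)) + 1 := by push_cast; ring
    rw [h1, hG, ih]
    push_cast
    ring
  | pred n ih =>
    have h1 := hG (x + (-(n : ℤ) - 1 : ℤ))
    have h2 : x + (-(n : ℤ) - 1 : ℤ) + 1 = x + (-(n : ℤ) : ℤ) := by push_cast; ring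
    rw [h2, ih] at h1
    push_cast at h1 ⊢
    linarith

/-- the circle map with a given lift -/
noncomputable def cmap (G : ℝ → ℝ) (z : Circle) : Circle :=
  Circle.exp (2 * Real.pi * G (Complex.arg (z : ℂ) / (2 * Real.pi)))

theorem cmap_exp {G : ℝ → ℝ} (hG : ∀ x, G (x + 1) = G x + 1) (x : ℝ) :
    cmap G (Circle.exp x) = Circle.exp (2 * Real.pi * G (x / (2 * Real.pi))) := by
  have hpi := Real.pi_pos
  unfold cmap
  have h1 : Circle.exp (Complex.arg (Circle.exp x : ℂ)) = Circle.exp x := Circle.exp_arg _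
  rw [Circle.exp_eq_exp] at h1
  obtain ⟨m, hm⟩ := h1
  rw [hm]
  have h2 : (x + m * (2 * Real.pi)) / (2 * Real.pi) = x / (2 * Real.pi) + m := by
    field_simp
  rw [h2, add_int hG, Circle.exp_eq_exp]
  exact ⟨m, by ring⟩

theorem cmap_smooth {G : ℝ → ℝ} (hG : ∀ x, G (x + 1) = G x + 1) (hs : ContDiff ℝ ∞ G) :
    ContMDiff (𝓡 1) (𝓡 1) ((⊤ : ℕ∞) : WithTop ℕ∞) (cmap G) := by
  intro w
  set x₀ : ℝ := Complex.arg (w : ℂ) with hx₀
  have hw : Circle.exp x₀ = w := Circle.exp_arg w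
  have h1 : cmap G = fun z => Circle.exp (2 * Real.pi * G (la w x₀ z / (2 * Real.pi))) := by
    funext z
    rw [← cmap_exp hG, exp_la hw]
  rw [h1]
  have h2 : ContMDiffAt 𝓘(ℝ, ℝ) 𝓘(ℝ, ℝ) ((⊤ : ℕ∞) : WithTop ℕ∞)
      (fun t : ℝ => 2 * Real.pi * G (t / (2 * Real.pi))) (la w x₀ w) := by
    apply ContDiffAt.contMDiffAt
    apply ContDiff.contDiffAt
    exact contDiff_const.mul (hs.comp (contDiff_id.div_const _))
  have h3 := h2.comp w (la_smooth w x₀)
  have h4 : ContMDiffAt 𝓘(ℝ, ℝ) (𝓡 1) ((⊤ : ℕ∞) : WithTop ℕ∞) Circle.exp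
      (2 * Real.pi * G (la w x₀ w / (2 * Real.pi))) := contMDiff_circleExp.contMDiffAt
  exact h4.comp w h3

theorem symm_add_one {G : Equiv.Perm ℝ} (hG : ∀ x, G (x + 1) = G x + 1) (x : ℝ) :
    G.symm (x + 1) = G.symm x + 1 := by
  apply G.injective
  rw [hG, G.apply_symm_apply, G.apply_symm_apply]

theorem cmap_inv {G : Equiv.Perm ℝ} (hG : ∀ x, G (x + 1) = G x + 1) (z : Circle) :
    cmap G.symm (cmap G z) = z := by
  have hpi := Real.pi_pos
  obtain ⟨x, rfl⟩ : ∃ x, Circle.exp x = z := ⟨_, Circle.exp_arg z⟩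
  rw [cmap_exp hG, cmap_exp (symm_add_one hG)]
  have h1 : 2 * Real.pi * G (x / (2 * Real.pi)) / (2 * Real.pi) = G (x / (2 * Real.pi)) := by
    field_simp
  rw [h1, G.symm_apply_apply]
  congr 1
  field_simp

/-- the diffeomorphism of the circle with a given lift -/
noncomputable def cdiff (G : Equiv.Perm ℝ) (hG : ∀ x, G (x + 1) = G x + 1) (hs : G ∈ Dg) :
    Diffeomorph (𝓡 1) (𝓡 1) Circle Circle ((⊤ : ℕ∞) : WithTop ℕ∞) where
  toFun := cmap G
  invFun := cmap G.symm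
  left_inv := cmap_inv hG
  right_inv := by
    intro z
    have := cmap_inv (G := G.symm) (symm_add_one hG) z
    simpa using this
  contMDiff_toFun := cmap_smooth hG (Dg.si hs).smooth
  contMDiff_invFun := cmap_smooth (symm_add_one hG) (Dg.si (Dg.inv_mem hs)).smooth

theorem cdiff_exp (G : Equiv.Perm ℝ) (hG : ∀ x, G (x + 1) = G x + 1) (hs : G ∈ Dg) (x : ℝ) :
    cdiff G hG hs (Circle.exp x) = Circle.exp (2 * Real.pi * G (x / (2 * Real.pi))) :=
  cmap_exp hG x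

theorem circle_reduction
    (H : ∀ F ∈ Dg, (∀ x, F (x + 1) = F x + 1) →
      ∃ G ∈ Dg, ∃ K ∈ Dg, (∀ x, G (x + 1) = G x + 1) ∧ (∀ x, K (x + 1) = K x + 1) ∧
        ∃ k : ℤ, ∀ x, F (K (G x)) = G (K x) + k) :
    ∀ f : Diffeomorph (𝓡 1) (𝓡 1) Circle Circle ((⊤ : ℕ∞) : WithTop ℕ∞),
      (∃ F : ℝ → ℝ, Continuous F ∧ StrictMono F ∧ ∀ x : ℝ, f (Circle.exp x) = Circle.exp (F x)) →
      ∃ g h : Diffeomorph (𝓡 1) (𝓡 1) Circle Circle ((⊤ : ℕ∞) : WithTop ℕ∞),
        (∃ G : ℝ → ℝ, Continuous G ∧ StrictMono G ∧ ∀ x : ℝ, g (Circle.exp x) = Circle.exp (G x)) ∧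
        (∃ H : ℝ → ℝ, Continuous H ∧ StrictMono H ∧ ∀ x : ℝ, h (Circle.exp x) = Circle.exp (H x)) ∧
        ∀ z : Circle, f z = g (h (g.symm (h.symm z))) := by
  have hpi := Real.pi_pos
  rintro f ⟨F, hF, hFm, hf⟩
  obtain ⟨E, hE, hE1, hE2⟩ := exists_Dg_lift hF hFm f hf
  obtain ⟨G, hG, K, hK, hG1, hK1, k, hk⟩ := H E hE hE1
  have hlift : ∀ (A : Equiv.Perm ℝ) (hA1 : ∀ x, A (x + 1) = A x + 1) (hA : A ∈ Dg),
      ∃ B : ℝ → ℝ, Continuous B ∧ StrictMono B ∧ ∀ x : ℝ,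
        cdiff A hA1 hA (Circle.exp x) = Circle.exp (B x) := by
    intro A hA1 hA
    refine ⟨fun x => 2 * Real.pi * A (x / (2 * Real.pi)), ?_, ?_, ?_⟩
    · have := (Dg.si hA).continuous
      fun_prop
    · intro x y hxy
      have h1 : x / (2 * Real.pi) < y / (2 * Real.pi) := by gcongr
      have h2 := Dg.strictMono hA h1
      simp only
      gcongr
    · intro x
      exact cdiff_exp A hA1 hA x
  refine ⟨cdiff G hG1 hG, cdiff K hK1 hK, hlift G hG1 hG, hlift K hK1 hK, ?_⟩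
  intro z
  have key : ∀ z : Circle, f (cdiff K hK1 hK (cdiff G hG1 hG z)) =
      cdiff G hG1 hG (cdiff K hK1 hK z) := by
    intro z
    obtain ⟨x, rfl⟩ : ∃ x, Circle.exp x = z := ⟨_, Circle.exp_arg z⟩
    have h1 : ∀ y : ℝ, 2 * Real.pi * y / (2 * Real.pi) = y := by
      intro y
      field_simp
    rw [cdiff_exp, cdiff_exp, cdiff_exp, cdiff_exp, h1, h1, hE2, hk, Circle.exp_eq_exp]
    exact ⟨k, by ring⟩
  have h2 := key ((cdiff G hG1 hG).symm ((cdiff K hK1 hK).symm z))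
  rw [Diffeomorph.apply_symm_apply, Diffeomorph.apply_symm_apply] at h2
  exact h2

end W4ec
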