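import Mathlib
import Pool.Agent.Work.MP_4ec80c_gt.Bd.B06

/-!
# Third part of the construction
-/

open Set Filter Topology
open scoped ContDiff commutatorElement

namespace W4ec

theorem norm_case {F : Equiv.Perm ℝ} (hF : F ∈ Pd 4)
    (hF1 : ∀ x, -(1/4) ≤ x → x ≤ 5/4 → F x = x + 1) :
    ∃ C ∈ Pd 4, ∃ H ∈ Pd 4, F = ⁅C, H⁆ := by
  obtain ⟨om, s, hs⟩ := exists_Std
  obtain ⟨hFa, hFb⟩ := F_vals hF hF1
  have mF := Dg.strictMono hF.1
  have ms := hs.mono
  obtain ⟨g₂, hg₂, g₄, hg₄, b₂, hb₂, γ, hγ, g20, g21, g40, g4a, g4b, g41, hb2γ, hγ0, hγ4,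
    hb2a, hb2b, hb2c, hb2d⟩ := part_one hs hF hF1
  obtain ⟨k, hk, hk0, hk1, hkL, hk8, hkgt, hk41⟩ := part_two hs hγ hb2γ hγ0 hγ4 hb2d
  have mk := Dg.strictMono hk
  have mb2 := Dg.strictMono hb₂
  have mg4 := Dg.strictMono hg₄
  obtain ⟨g₃, hg₃, g30, g31⟩ := pts2 (x₁ := 0) (x₂ := 1) (y₁ := 137/64) (y₂ := 138/64)
    zero_lt_one (by norm_num)
  have hki := Dg.inv_mem hk
  have mki := Dg.strictMono hki
  have hki0 : k⁻¹ 0 = 139/64 := by rw [Equiv.Perm.inv_eq_iff_eq, hk0]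
  have hki1 : k⁻¹ 1 = 49/8 := by rw [Equiv.Perm.inv_eq_iff_eq, hk1]
  -- `B`
  obtain ⟨B, hB⟩ := exists_Bump2 (p := 4) hs.mem hg₃ hki (by rw [g31, hki0]; norm_num)
    (by rw [hki1, g30]; norm_num)
  have hBP := hB.mem
  have mB := Dg.strictMono hBP.1
  have hBk : ∀ x, 139/64 ≤ x → x ≤ 49/8 → B x = k⁻¹ (s (k x)) := by
    intro x hx1 hx2
    have := hB.e34 x (by rw [hki0]; exact hx1) (by rw [hki1]; exact hx2)
    rwa [inv_inv] at this
  have hBk' : ∀ x, 139/64 ≤ x → x ≤ 49/8 → k (B x) = s (k x) := by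
    intro x hx1 hx2
    rw [hBk x hx1 hx2, papply_inv]
  have hkI : ∀ x, 139/64 ≤ x → x ≤ 49/8 → 0 ≤ k x ∧ k x ≤ 1 := by
    intro x hx1 hx2
    constructor
    · rw [← hk0]; exact mk.monotone hx1
    · rw [← hk1]; exact mk.monotone hx2
  have hBI : ∀ x, 139/64 ≤ x → x ≤ 49/8 → 139/64 ≤ B x ∧ B x ≤ 49/8 := by
    intro x hx1 hx2
    obtain ⟨h1, h2⟩ := hkI x hx1 hx2
    have h3 := ms.monotone h1
    have h4 := ms.monotone h2
    rw [hs.s0] at h3
    rw [hs.s1] at h4
    rw [← hBk' x hx1 hx2] at h3 h4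
    rw [← hk0, Dg.apply_le hk] at h3
    rw [← hk1, Dg.apply_le hk] at h4
    exact ⟨h3, h4⟩
  have hBb2 : ∀ x, 139/64 ≤ x → x ≤ 4 → B x = b₂ x := by
    intro x hx1 hx2
    rw [hBk x hx1 (by linarith only [hx2]), Equiv.Perm.inv_eq_iff_eq]
    have h1 : b₂ x ≤ 5 := by
      have h2 := mb2.monotone hx2
      rw [hb2d 4 (by norm_num) le_rfl] at h2
      linarith only [h2]
    rw [hkL _ h1, hkL x (by linarith only [hx2]), hb2γ x hx2, pinv_apply]
  have hBpow : ∀ j : ℕ, ∀ x, 139/64 ≤ x → x ≤ 49/8 →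
      (139/64 ≤ (B ^ j) x ∧ (B ^ j) x ≤ 49/8) ∧ k ((B ^ j) x) = (s ^ j) (k x) := by
    intro j
    induction j with
    | zero => intro x hx1 hx2; exact ⟨⟨hx1, hx2⟩, rfl⟩
    | succ j ih =>
      intro x hx1 hx2
      obtain ⟨⟨h1, h2⟩, h3⟩ := ih x hx1 hx2
      rw [pow_succ', Equiv.Perm.mul_apply, pow_succ', Equiv.Perm.mul_apply]
      exact ⟨hBI _ h1 h2, by rw [hBk' _ h1 h2, h3]⟩
  have hB8 : ∀ x, 65/16 ≤ x → x ≤ 81/16 → (B ^ 8) x = x + 1 := by
    intro x hx1 hx2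
    obtain ⟨_, h3⟩ := hBpow 8 x (by linarith only [hx1]) (by linarith only [hx2])
    rw [hk8 x hx1 hx2] at h3
    exact mk.injective h3
  have hB8P : B ^ 8 ∈ Pd 4 := (Pd 4).pow_mem hBP 8
  have hB8' : ∀ x, 1/16 ≤ x → x ≤ 17/16 → (B ^ 8) x = x + 1 := by
    intro x hx1 hx2
    have h1 := hB8 (x + 4) (by linarith only [hx1]) (by linarith only [hx2])
    rw [hB8P.2] at h1
    linarith
  -- values of `B` near `0`
  have hB0 : ∀ x, -(1/8) ≤ x → x ≤ 0 → B x = x + 1 := by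
    intro x hx1 hx2
    have h1 : B (x + 4) = x + 4 + 1 := by
      rw [hBb2 _ (by linarith only [hx1]) (by linarith only [hx2]),
          hb2d _ (by linarith only [hx1]) (by linarith only [hx2])]
    rw [hBP.2] at h1
    linarith only [h1]
  have hBfix : ∀ x, 138/64 ≤ x → x ≤ 139/64 → B x = x := by
    intro x hx1 hx2
    exact hB.e23 x (by rw [g31]; exact hx1) (by rw [hki0]; exact hx2)
  -- `𝔥 = F⁻¹ B`
  set h : Equiv.Perm ℝ := F⁻¹ * B with hh
  have hhP : h ∈ Pd 4 := (Pd 4).mul_mem ((Pd 4).inv_mem hF) hBP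
  have mh := Dg.strictMono hhP.1
  have hhlt : ∀ x, h x < x ↔ B x < F x := by
    intro x
    rw [← Dg.apply_lt hF.1, hh, Equiv.Perm.mul_apply, papply_inv]
  have hh0 : h 0 = 0 := by
    rw [hh, Equiv.Perm.mul_apply, Equiv.Perm.inv_eq_iff_eq, hB0 0 (by norm_num) le_rfl,
      hF1 0 (by norm_num) (by norm_num)]
  have hhp : h (142/64) = 142/64 := by
    rw [hh, Equiv.Perm.mul_apply, Equiv.Perm.inv_eq_iff_eq, hBb2 _ (by norm_num) (by norm_num),
      hb2b _ le_rfl (by norm_num)]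
  have hhr : ∀ t, om 1 ≤ t → t ≤ 1 → h (g₄ t) = g₄ (s⁻¹ t) := by
    intro t ht1 ht2
    have h1 : 141/64 ≤ g₄ t := by rw [← g4b]; exact mg4.monotone ht1
    have h2 : g₄ t ≤ 142/64 := by rw [← g41]; exact mg4.monotone ht2
    rw [hh, Equiv.Perm.mul_apply, Equiv.Perm.inv_eq_iff_eq, hBb2 _ (by linarith only [h1]) (by linarith only [h2]),
      hb2a _ h1 h2, pinv_apply]
  have hdown : ∀ x, 0 < x → x < 142/64 → h x < x := by
    intro x hx1 hx2
    rw [hhlt]
    rcases le_total x (17/16) with c1 | c1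
    · -- first region
      have h1 := hkgt (x + 4) (by linarith only [hx1]) (by linarith only [c1])
      rw [← hBk' (x + 4) (by linarith only [hx1]) (by linarith only [hx2, c1]), Dg.apply_lt hk,
          hBP.2] at h1
      have h2 : F x = x + 1 := hF1 x (by linarith only [hx1]) (by linarith only [c1])
      linarith only [h1, h2]
    rcases le_total x (9/8) with c2 | c2
    · have h1 : B (x + 4) ≤ B (41/8) := mB.monotone (by linarith only [c2])
      have h2 : B (41/8) < 97/16 := by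
        rw [← hBk' (41/8) (by norm_num) (by norm_num), Dg.apply_lt hk] at hk41
        exact hk41
      rw [hBP.2] at h1
      have h3 : F x = x + 1 := hF1 x (by linarith only [c1]) (by linarith only [c2])
      linarith only [c1, h1, h2, h3]
    rcases le_total x (17/8) with c3 | c3
    · have h1 := (hBI (x + 4) (by linarith only [c2]) (by linarith only [c3])).2
      rw [hBP.2] at h1
      have h2 : F (9/8) ≤ F x := mF.monotone c2
      rw [hF1 (9/8) (by norm_num) (by norm_num)] at h2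
      rcases eq_or_lt_of_le c2 with c4 | c4
      · have h3 : B (41/8) < 97/16 := by
          rw [← hBk' (41/8) (by norm_num) (by norm_num), Dg.apply_lt hk] at hk41
          exact hk41
        have h4 : B (x + 4) = B (41/8) := by rw [← c4]; norm_num
        rw [hBP.2] at h4
        linarith only [h2, h3, h4]
      · have h3 : F (9/8) < F x := mF c4
        rw [hF1 (9/8) (by norm_num) (by norm_num)] at h3
        linarith only [h1, h3]
    have hFx : 9/4 ≤ F x := hFb x (by linarith only [c3])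
    rcases le_total x (139/64) with c4 | c4
    · have h1 : B x ≤ B (139/64) := mB.monotone c4
      rw [hBfix _ (by norm_num) le_rfl] at h1
      linarith only [hFx, h1]
    rcases le_total x (141/64) with c5 | c5
    · -- `B x ≤ B z = F q`
      have h1 : B x ≤ B (141/64) := mB.monotone c5
      have h2 : B (141/64) = F (139/64) := by
        rw [hBb2 _ (by norm_num) (by norm_num), hb2a _ le_rfl (by norm_num), ← g4b, pinv_apply,
          hs.inv, sub_self, g4a]
      rcases eq_or_lt_of_le c4 with c6 | c6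
      · rw [← c6, hBfix _ (by norm_num) le_rfl]
        rw [← c6] at hFx
        linarith only [hFx]
      · have h3 : F (139/64) < F x := mF c6
        linarith only [h1, h2, h3]
    · rw [hBb2 x c4 (by linarith only [hx2, c5]), hb2a x c5 hx2.le]
      apply mF
      obtain ⟨t, rfl⟩ : ∃ t, g₄ t = x := ⟨g₄⁻¹ x, papply_inv _ _⟩
      rw [pinv_apply]
      apply mg4
      apply hs.inv_lt
      · rw [← Dg.apply_lt hg₄, g40]; linarith only [hx2, c5]
      · rw [← Dg.apply_lt hg₄, g41]; exact hx2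
  -- `m`
  obtain ⟨m, hm⟩ := reach_down hhP.1 (α := 1/2) (β := 141/64) (by
    intro x hx1 hx2
    exact hdown x (by linarith only [hx1]) (by linarith only [hx2]))
  set g₅ : Equiv.Perm ℝ := h ^ m * g₄ * s ^ m with hg₅
  have hg₅D : g₅ ∈ Dg :=
    Dg.mul_mem (Dg.mul_mem (Dg.pow_mem hhP.1 m) hg₄) (Dg.pow_mem hs.mem.1 m)
  have mg5 := Dg.strictMono hg₅D
  have hg51 : g₅ 1 = 142/64 := by
    have h1 : (s ^ m) 1 = 1 := Su.fix_right ((Su 0 1).pow_mem hs.mem m) le_rfl
    have h3 : ∀ n : ℕ, (h ^ n) (142/64) = 142/64 := by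
      intro n
      induction n with
      | zero => rfl
      | succ n ih => rw [pow_succ, Equiv.Perm.mul_apply, hhp, ih]
    rw [hg₅]
    simp only [Equiv.Perm.mul_apply]
    rw [h1, g41, h3]
  have hg5a : g₅ (om (1 - m)) < 1/2 := by
    rw [hg₅]
    simp only [Equiv.Perm.mul_apply]
    rw [hs.pow, sub_add_cancel, g4b]
    exact hm
  have hg5 : ∀ t, om (1 - m) ≤ t → t ≤ 1 → h (g₅ t) = g₅ (s⁻¹ t) := by
    intro t ht1 ht2
    have h1 : om 1 ≤ (s ^ m) t := by
      have := (Dg.strictMono (Dg.pow_mem hs.mem.1 m)).monotone ht1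
      rwa [hs.pow, sub_add_cancel] at this
    have h2 : (s ^ m) t ≤ 1 := by
      have := (Dg.strictMono (Dg.pow_mem hs.mem.1 m)).monotone ht2
      rwa [Su.fix_right ((Su 0 1).pow_mem hs.mem m) le_rfl] at this
    have h3 : (s ^ m) (s⁻¹ t) = s⁻¹ ((s ^ m) t) := by
      have hc : Commute (s ^ m) s⁻¹ := ((Commute.refl s).pow_left m).inv_right
      have h4 := congrArg (fun e : Equiv.Perm ℝ => e t) hc.eq
      simpa [Equiv.Perm.mul_apply] using h4
    rw [hg₅]
    simp only [Equiv.Perm.mul_apply]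
    rw [h3, ← hhr _ h1 h2]
    have : h * h ^ m = h ^ m * h := (pow_succ' h m).symm.trans (pow_succ h m)
    have h4 := congrArg (fun e : Equiv.Perm ℝ => e (g₄ ((s ^ m) t))) this
    simpa [Equiv.Perm.mul_apply] using h4
  -- `T`
  obtain ⟨T, hT⟩ : ∃ T, g₅ T = 1/2 := ⟨g₅⁻¹ (1/2), papply_inv _ _⟩
  have hT1 : om (1 - m) < T := by rw [← Dg.apply_lt hg₅D, hT]; exact hg5a
  have hT0 : 0 < T := lt_trans (hs.pos _) hT1
  have hT2 : T < 1 := by rw [← Dg.apply_lt hg₅D, hT, hg51]; norm_num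
  set d : ℝ := s⁻¹ T with hd
  have hsi := Dg.inv_mem hs.mem.1
  have msi := Dg.strictMono hsi
  have hd0 : 0 < d := by
    have h1 := msi hT0
    rwa [Su.fix_left ((Su 0 1).inv_mem hs.mem) le_rfl] at h1
  have hdT : d < T := hs.inv_lt hT0 hT2
  have hg5d : g₅ d = h (1/2) := by rw [hd, ← hg5 T hT1.le hT2.le, hT]
  have hh12 : 0 < h (1/2) := by rw [← hh0]; exact mh (by norm_num)
  obtain ⟨u₁, hu₁, hu10, hu1d⟩ := pts2 (x₁ := 0) (x₂ := d / 2) (y₁ := 0) (y₂ := h (1/2) / 2)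
    (by linarith only [hd0]) (by linarith only [hh12])
  obtain ⟨g₁, hg₁, hg1L, hg1R⟩ := interpD hu₁ hg₅D (a := d / 2) (b := d) (by linarith only [hd0]) (by
    rw [hu1d, hg5d]; linarith only [hh12])
  have hg10 : g₁ 0 = 0 := by rw [hg1L 0 (by linarith only [hd0]), hu10]
  have hg11 : g₁ 1 = 142/64 := by rw [hg1R 1 (by show d ≤ 1; linarith only [hT2, hdT]), hg51]
  have hg1T : g₁ T = 1/2 := by rw [hg1R T (by show d ≤ T; linarith only [hdT]), hT]
  -- `H₀`
  obtain ⟨H₀, hH₀⟩ := exists_Bump2 (p := 4) hs.mem hg₁ hg₂ (by rw [hg11, g20]; norm_num)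
    (by rw [g21, hg10]; norm_num)
  -- conjugation
  obtain ⟨G₀, hG₀, hconj⟩ := Bump2.conj hs.mem hg₁ hg₂ hg₃ hki hH₀ hB
    (by rw [hg11, g20]; norm_num) (by rw [g21, hg10]; norm_num) (by rw [g31, hki0]; norm_num)
    (by rw [hki1, g30]; norm_num)
  -- the orbit of `-1/16`
  have hBd : B (-(1/16)) = 15/16 := by rw [hB0 _ (by norm_num) (by norm_num)]; norm_num
  have hstep : ∀ j : ℕ, (B ^ j) (-(1/16)) ≤ (B ^ (j + 1)) (-(1/16)) := by
    intro j
    rw [pow_succ, Equiv.Perm.mul_apply]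
    exact (Dg.strictMono (Dg.pow_mem hBP.1 j)).monotone (by rw [hBd]; norm_num)
  have mB8 := (Dg.strictMono hB8P.1).monotone
  have hB7 : (B ^ 7) (-(1/16)) ≤ 17/16 := by
    have h1 : (B ^ 8) (-(1/16)) ≤ (B ^ 8) (1/16) := mB8 (by norm_num)
    rw [hB8' (1/16) le_rfl (by norm_num)] at h1
    have h2 := hstep 7
    norm_num at h1 h2 ⊢
    linarith only [h1, h2]
  have hB14 : (B ^ 14) (-(1/16)) ≤ -(1/16) + 4 := by
    have h1 : (B ^ 8) ((B ^ 7) (-(1/16))) ≤ (B ^ 8) (17/16) := mB8 hB7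
    rw [hB8' (17/16) (by norm_num) le_rfl, ← Equiv.Perm.mul_apply, ← pow_add] at h1
    have h2 := hstep 14
    norm_num at h1 h2 ⊢
    linarith only [hT2, hd0, hdT, h1, h2]
  refine final_geo (B := B) (H0 := H₀) (G0 := G₀) (d := -(1/16)) (u := 0) (v := 1/2) hF hBP
    hH₀.mem hG₀ hconj (by norm_num) (by norm_num) (by rw [hBd]; norm_num) hB14 ?_ ?_
  · intro x hx1 hx2
    rw [zero_add] at hx2
    rcases le_total x (142/64) with c1 | c1
    · rw [hH₀.e12 x (by rw [hg10]; linarith only [hT2, hd0, hdT, hx1]) (by rw [hg11]; exact c1)]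
      obtain ⟨t, rfl⟩ : ∃ t, g₁ t = x := ⟨g₁⁻¹ x, papply_inv _ _⟩
      rw [pinv_apply]
      have ht1 : T ≤ t := by rw [← Dg.apply_le hg₁, hg1T]; exact hx1
      have ht2 : t ≤ 1 := by rw [← Dg.apply_le hg₁, hg11]; exact c1
      have ht3 : d ≤ s⁻¹ t := msi.monotone ht1
      rw [hg1R _ ht3, ← hg5 t (by linarith only [hT1, ht1]) ht2,
          hg1R t (by show d ≤ t; linarith only [hdT, ht1]), hh,
        Equiv.Perm.mul_apply, papply_inv]
    rcases le_total x (143/64) with c2 | c2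
    · rw [hH₀.e23 x (by rw [hg11]; exact c1) (by rw [g20]; exact c2),
        hBb2 x (by linarith only [hT2, hd0, hdT, c1]) (by linarith only [hx2]), hb2b x c1 c2]
    rcases le_total x (31/8) with c3 | c3
    · rw [hH₀.e34 x (by rw [g20]; exact c2) (by rw [g21]; exact c3),
        hBb2 x (by linarith only [hT2, hd0, hdT, c2]) (by linarith only [hx2]), hb2c x c2 c3]
    · rw [hH₀.e41 x (by rw [g21]; exact c3) (by rw [hg10]; linarith only [hx2]),
        hBb2 x (by linarith only [hT2, hd0, hdT, c3]) (by linarith only [hx2]), hb2d x c3 hx2,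
            hFa x (by linarith only [hT2, hd0, hdT, c3]) (by linarith only [hT2, hd0, hdT, hx2])]
  · intro x hx1 hx2
    rw [hBd] at hx1
    rw [hF1 x (by linarith only [hT2, hd0, hdT, hx1]) (by linarith only [hT2, hd0, hdT, hB7,
        hx2]), hB8' x (by linarith only [hT2, hd0, hdT, hx1]) (by linarith only [hB7, hx2])]

end W4ec
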