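import Mathlib
import Pool.Agent.Work.MP_4ec80c_gt.PartThree
import Pool.Agent.Work.MP_4ec80c_gt.Bd.B04

/-!
# Normalisation and trichotomy
-/

open Set Filter Topology
open scoped ContDiff commutatorElement

namespace W4ec

/-- Period 4, with a point whose first two iterates stay in a fundamental interval. -/
theorem main_case4 {F : Equiv.Perm ℝ} (hF : F ∈ Pd 4) {x₀ : ℝ} (h1 : x₀ < F x₀)
    (h3 : F (F x₀) < x₀ + 4) :
    ∃ C ∈ Pd 4, ∃ H ∈ Pd 4, F = ⁅C, H⁆ := by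
  have mF := Dg.strictMono hF.1
  have cF := Dg.continuous hF.1
  -- the slope
  obtain ⟨k, hk, hk1, hk2⟩ : ∃ k : ℝ, 0 < k ∧ x₀ + k / 4 < F (x₀ - k / 4) ∧
      F (F (x₀ + k / 4)) < x₀ - k / 4 + 4 := by
    have e1 : ∀ᶠ k : ℝ in 𝓝 0, x₀ + k / 4 < F (x₀ - k / 4) := by
      have c1 : Continuous fun k : ℝ => x₀ + k / 4 := by fun_prop
      have c2 : Continuous fun k : ℝ => F (x₀ - k / 4) := cF.comp (by fun_prop)
      exact c1.continuousAt.eventually_lt c2.continuousAt (by simpa using h1)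
    have e2 : ∀ᶠ k : ℝ in 𝓝 0, F (F (x₀ + k / 4)) < x₀ - k / 4 + 4 := by
      have c1 : Continuous fun k : ℝ => F (F (x₀ + k / 4)) := cF.comp (cF.comp (by fun_prop))
      have c2 : Continuous fun k : ℝ => x₀ - k / 4 + 4 := by fun_prop
      exact c1.continuousAt.eventually_lt c2.continuousAt (by simpa using h3)
    have e3 : ∀ᶠ k : ℝ in 𝓝[>] 0, 0 < k := self_mem_nhdsWithin
    obtain ⟨k, ⟨hk1, hk2⟩, hk3⟩ :=
      (((e1.and e2).filter_mono nhdsWithin_le_nhds).and e3).exists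
    exact ⟨k, hk3, hk1, hk2⟩
  -- `u`
  have hu : SI (fun x => k * x + x₀) := SI.affine hk
  have hushift : ∀ c : ℝ, SI (fun x => k * (x + c) + x₀) := fun c => hu.comp (SI.add_const c)
  -- `Φ₁`
  obtain ⟨Φ₁, hΦ₁, hΦ₁L, hΦ₁R⟩ := interp hu ((Dg.si hF.1).comp (hushift (-1))) (a := 1/4)
    (b := 3/4) (by norm_num) (by
      have e1 : k * (1/4) + x₀ = x₀ + k / 4 := by ring
      have e2 : k * (3/4 + -1) + x₀ = x₀ - k / 4 := by ring
      rw [e1, e2]; exact hk1)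
  have hΦ₁L' : ∀ x ≤ 1/4, Φ₁ x = k * x + x₀ := hΦ₁L
  have hΦ₁R' : ∀ x, 3/4 ≤ x → Φ₁ x = F (k * (x + -1) + x₀) := fun x hx => hΦ₁R x hx
  obtain ⟨Φ₃, hΦ₃, hΦ₃L, hΦ₃R⟩ := glue hΦ₁ ((Dg.si hF.1).comp (hΦ₁.comp (SI.add_const (-1))))
    (a := 3/4) (b := 5/4) (by norm_num) (by
      intro x hx1 hx2
      rw [hΦ₁R' x hx1, hΦ₁L' _ (by linarith)])
  have hΦ₃R' : ∀ x, 3/4 ≤ x → Φ₃ x = F (Φ₁ (x + -1)) := fun x hx => hΦ₃R x hx
  obtain ⟨Φ₄, hΦ₄, hΦ₄L, hΦ₄R⟩ := interp hΦ₃ ((SI.add_const 4).comp (hushift (-4))) (a := 9/4)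
    (b := 15/4) (by norm_num) (by
      rw [hΦ₃R' _ (by norm_num), hΦ₁R' _ (by norm_num)]
      have e1 : k * (9/4 + -1 + -1) + x₀ = x₀ + k / 4 := by ring
      have e2 : k * (15/4 + -4) + x₀ + 4 = x₀ - k / 4 + 4 := by ring
      rw [e1, e2]; exact hk2)
  have hΦ₄R' : ∀ x, 15/4 ≤ x → Φ₄ x = k * (x + -4) + x₀ + 4 := fun x hx => hΦ₄R x hx
  obtain ⟨Φ, hΦ, hΦp, hΦeq⟩ := perExt hΦ₄ (c := 0) (e := 1/4) (p := 4) (by norm_num)
    (by norm_num) (by
      intro x hx1 hx2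
      rw [hΦ₄R' _ (by linarith), hΦ₄L _ (by linarith), hΦ₃L _ (by linarith),
        hΦ₁L' _ (by linarith)]
      ring)
  rw [zero_add] at hΦeq
  have hΦP : Φ ∈ Pd 4 := ⟨hΦ, hΦp⟩
  -- values of `Φ` on `[-1/4, 9/4]`
  have hΦval : ∀ x, -(1/4) ≤ x → x ≤ 9/4 → Φ x = Φ₃ x := by
    intro x hx1 hx2
    rcases le_total 0 x with h | h
    · rw [hΦeq x h (by linarith), hΦ₄L x hx2]
    · have e1 := hΦp x
      rw [hΦeq (x + 4) (by linarith) (by linarith), hΦ₄R' _ (by linarith)] at e1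
      rw [hΦ₃L x (by linarith), hΦ₁L' x (by linarith)]
      linarith
  have hrel : ∀ x, -(1/4) ≤ x → x ≤ 5/4 → F (Φ x) = Φ (x + 1) := by
    intro x hx1 hx2
    rw [hΦval x hx1 (by linarith), hΦval (x + 1) (by linarith) (by linarith),
      hΦ₃R' (x + 1) (by linarith), add_neg_cancel_right, hΦ₃L x hx2]
  have hF' : Φ⁻¹ * F * Φ ∈ Pd 4 := (Pd 4).mul_mem ((Pd 4).mul_mem ((Pd 4).inv_mem hΦP) hF) hΦP
  obtain ⟨C, hC, H, hH, hCH⟩ := norm_case hF' (by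
    intro x hx1 hx2
    simp only [Equiv.Perm.mul_apply]
    rw [hrel x hx1 hx2, pinv_apply])
  refine ⟨Φ * C * Φ⁻¹, (Pd 4).mul_mem ((Pd 4).mul_mem hΦP hC) ((Pd 4).inv_mem hΦP),
    Φ * H * Φ⁻¹, (Pd 4).mul_mem ((Pd 4).mul_mem hΦP hH) ((Pd 4).inv_mem hΦP), ?_⟩
  have e1 : F = Φ * (Φ⁻¹ * F * Φ) * Φ⁻¹ := by group
  rw [e1, hCH, commutatorElement_def, commutatorElement_def]
  group

/-- multiplication by `4` -/
theorem exists_mul4 : ∃ D ∈ Dg, ∀ x, D x = 4 * x := by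
  have h : SI (fun x : ℝ => 4 * x + 0) := SI.affine (by norm_num)
  obtain ⟨D, hD, hD'⟩ := h.exists_Dg (fun y => ⟨y / 4, by ring⟩)
  exact ⟨D, hD, fun x => by rw [hD', add_zero]⟩

theorem main_case1 {F : Equiv.Perm ℝ} (hF : F ∈ Pd 1) {x₀ : ℝ} (h1 : x₀ < F x₀)
    (h3 : F (F x₀) < x₀ + 1) :
    ∃ C ∈ Pd 1, ∃ H ∈ Pd 1, F = ⁅C, H⁆ := by
  obtain ⟨D, hD, hDx⟩ := exists_mul4
  have hDi : ∀ x, D⁻¹ x = x / 4 := by
    intro x
    rw [Equiv.Perm.inv_eq_iff_eq, hDx]; ring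
  have hDiD := Dg.inv_mem hD
  have up : ∀ {e : Equiv.Perm ℝ}, e ∈ Pd 1 → D * e * D⁻¹ ∈ Pd 4 := by
    intro e he
    refine ⟨Dg.mul_mem (Dg.mul_mem hD he.1) hDiD, fun x => ?_⟩
    simp only [Equiv.Perm.mul_apply]
    rw [hDx, hDx, hDi, hDi, add_div, show (4:ℝ)/4 = 1 by norm_num, he.2]
    ring
  have down : ∀ {e : Equiv.Perm ℝ}, e ∈ Pd 4 → D⁻¹ * e * D ∈ Pd 1 := by
    intro e he
    refine ⟨Dg.mul_mem (Dg.mul_mem hDiD he.1) hD, fun x => ?_⟩
    simp only [Equiv.Perm.mul_apply]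
    rw [hDx, hDx, hDi, hDi, mul_add, mul_one, he.2]
    ring
  obtain ⟨C, hC, H, hH, hCH⟩ := main_case4 (up hF) (x₀ := 4 * x₀)
    (by
      simp only [Equiv.Perm.mul_apply]
      rw [hDi, hDx, show 4 * x₀ / 4 = x₀ by ring]; linarith)
    (by
      simp only [Equiv.Perm.mul_apply]
      rw [hDi, hDx, hDi, hDx, show 4 * x₀ / 4 = x₀ by ring, show 4 * F x₀ / 4 = F x₀ by ring]
      linarith)
  refine ⟨D⁻¹ * C * D, down hC, D⁻¹ * H * D, down hH, ?_⟩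
  have e1 : F = D⁻¹ * (D * F * D⁻¹) * D := by group
  rw [e1, hCH, commutatorElement_def, commutatorElement_def]
  group

/-- `F` is a commutator up to an integral translation. -/
def Cm (F : Equiv.Perm ℝ) : Prop := ∃ C ∈ Pd 1, ∃ H ∈ Pd 1, ∃ k : ℤ, F = ⁅C, H⁆ * tr k

theorem tr_comm {e : Equiv.Perm ℝ} (he : e ∈ Pd 1) (k : ℤ) : Commute e (tr k) := by
  ext x
  simp only [Equiv.Perm.mul_apply, tr_apply]
  have := Pd.per_int he k x
  rwa [mul_one] at this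

theorem tr_mem_Pr (c : ℝ) : tr c ∈ Pd 1 := ⟨tr_mem c, fun x => by simp only [tr_apply]; ring⟩

theorem Cm.of_mul_tr {F : Equiv.Perm ℝ} {k : ℤ} (h : Cm (F * tr k)) : Cm F := by
  obtain ⟨C, hC, H, hH, m, e⟩ := h
  refine ⟨C, hC, H, hH, m - k, ?_⟩
  have h1 : F = F * tr k * (tr k)⁻¹ := by group
  rw [h1, e, tr_inv, mul_assoc, tr_mul]
  push_cast
  rw [sub_eq_add_neg]

theorem Cm.inv {F : Equiv.Perm ℝ} (h : Cm F⁻¹) : Cm F := by
  obtain ⟨C, hC, H, hH, m, e⟩ := h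
  refine ⟨H, hH, C, hC, -m, ?_⟩
  have hcomm : Commute ⁅H, C⁆ (tr ((-m : ℤ) : ℝ)) := by
    apply tr_comm
    rw [commutatorElement_def]
    exact (Pd 1).mul_mem ((Pd 1).mul_mem ((Pd 1).mul_mem hH hC) ((Pd 1).inv_mem hH))
      ((Pd 1).inv_mem hC)
  rw [hcomm.eq, ← commutatorElement_inv C H]
  have h1 : F = (F⁻¹)⁻¹ := (inv_inv F).symm
  rw [h1, e, mul_inv_rev, tr_inv]
  push_cast
  rfl

theorem Cm.of_conj {F K : Equiv.Perm ℝ} (hK : K ∈ Pd 1) (h : Cm (K * F * K⁻¹)) : Cm F := by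
  obtain ⟨C, hC, H, hH, m, e⟩ := h
  refine ⟨K⁻¹ * C * K, (Pd 1).mul_mem ((Pd 1).mul_mem ((Pd 1).inv_mem hK) hC) hK,
    K⁻¹ * H * K, (Pd 1).mul_mem ((Pd 1).mul_mem ((Pd 1).inv_mem hK) hH) hK, m, ?_⟩
  have h1 : F = K⁻¹ * (K * F * K⁻¹) * K := by group
  have h2 : tr m * K = K * tr m := (tr_comm hK m).eq.symm
  rw [h1, e, mul_assoc, mul_assoc, h2, commutatorElement_def, commutatorElement_def]
  group

theorem Cm.of_main {F : Equiv.Perm ℝ} (hF : F ∈ Pd 1) {x₀ : ℝ} (h1 : x₀ < F x₀)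
    (h3 : F (F x₀) < x₀ + 1) : Cm F := by
  obtain ⟨C, hC, H, hH, e⟩ := main_case1 hF h1 h3
  exact ⟨C, hC, H, hH, 0, by rw [e]; simp [tr_zero]⟩

/-- a diffeomorphism with a fixed point -/
theorem Cm.of_fixed {F : Equiv.Perm ℝ} (hF : F ∈ Pd 1) {a : ℝ} (ha : F a = a) : Cm F := by
  -- the upwards case
  have key : ∀ {E : Equiv.Perm ℝ}, E ∈ Pd 1 → E a = a → (∃ y, y < E y) → Cm E := by
    intro E hE hEa ⟨y, hy⟩
    obtain ⟨k, z, hz1, hz2, hyz⟩ := exists_shift one_pos a y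
    have hzE : z < E z := by
      rw [hyz, Pd.per_int hE] at hy; linarith
    have hza : a < z := by
      rcases eq_or_lt_of_le hz1 with h | h
      · rw [← h, hEa] at hzE; exact absurd hzE (lt_irrefl _)
      · exact h
    have mE := Dg.strictMono hE.1
    have hEa1 : E (a + 1) = a + 1 := by rw [hE.2, hEa]
    have h1 : E z < a + 1 := by rw [← hEa1]; exact mE hz2
    have h2 : E (E z) < a + 1 := by rw [← hEa1]; exact mE h1
    exact Cm.of_main hE hzE (by linarith)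
  by_cases hex : ∃ y, y < F y
  · exact key hF ha hex
  push Not at hex
  by_cases hex2 : ∃ y, F y < y
  · obtain ⟨y, hy⟩ := hex2
    apply Cm.inv
    refine key ((Pd 1).inv_mem hF) (by rw [Equiv.Perm.inv_eq_iff_eq, ha]) ⟨y, ?_⟩
    rw [← Dg.apply_lt hF.1, papply_inv]
    exact hy
  · push Not at hex2
    have h1 : F = 1 := by
      ext x
      exact le_antisymm (hex x) (hex2 x)
    exact ⟨1, (Pd 1).one_mem, 1, (Pd 1).one_mem, 0, by rw [h1]; simp [tr_zero]⟩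

theorem Cm_half : Cm (tr (1/2)) := by
  obtain ⟨G, hG, K, hK, hGp, hKp, k, h⟩ := half_rotation
  refine ⟨G, ⟨hG, hGp⟩, K, ⟨hK, hKp⟩, k, ?_⟩
  have hGP : G ∈ Pd 1 := ⟨hG, hGp⟩
  have hKP : K ∈ Pd 1 := ⟨hK, hKp⟩
  have h1 : tr (1/2) * (K * G) = tr k * (G * K) := by
    ext x
    exact h x
  have h2 : tr (1/2) = tr k * (G * K) * (K * G)⁻¹ := by rw [← h1]; group
  have hcomm : Commute ⁅G, K⁆ (tr (k : ℝ)) := by
    apply tr_comm
    rw [commutatorElement_def]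
    exact (Pd 1).mul_mem ((Pd 1).mul_mem ((Pd 1).mul_mem hGP hKP) ((Pd 1).inv_mem hGP))
      ((Pd 1).inv_mem hKP)
  rw [hcomm.eq, h2, commutatorElement_def]
  group

theorem Cm.of_involution {F : Equiv.Perm ℝ} (hF : F ∈ Pd 1) (h2 : ∀ x, F (F x) = x + 1) :
    Cm F := by
  have hsi : SI (fun x => (1/2) * (x + F x) + (-(1/4))) := by
    refine ⟨?_, ?_⟩
    · exact (contDiff_const.mul (contDiff_id.add (Dg.si hF.1).smooth)).add contDiff_const
    · intro x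
      have h1 : HasDerivAt (fun x => (1/2) * (x + F x) + (-(1/4))) ((1/2) * (1 + deriv F x)) x :=
        (((hasDerivAt_id' x).add ((Dg.si hF.1).hasDerivAt x)).const_mul (1/2)).add_const _
      rw [h1.deriv]
      have := (Dg.si hF.1).pos x
      positivity
  have hper : ∀ x, (1/2 : ℝ) * ((x + 1) + F (x + 1)) + (-(1/4)) =
      (1/2) * (x + F x) + (-(1/4)) + 1 := by
    intro x
    rw [hF.2]; ring
  obtain ⟨K, hK, hKp, hKeq⟩ := perExt hsi (c := 0) (e := 1) (p := 1) one_pos one_pos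
    (fun x _ _ => hper x)
  have hKP : K ∈ Pd 1 := ⟨hK, hKp⟩
  have hKx : ∀ x, K x = (1/2) * (x + F x) + (-(1/4)) := by
    intro x
    obtain ⟨k, y, hy1, hy2, rfl⟩ := exists_shift one_pos 0 x
    rw [Pd.per_int hKP, Pd.per_int hF, hKeq y hy1 hy2.le]; ring
  apply Cm.of_conj hKP
  have : K * F * K⁻¹ = tr (1/2) := by
    ext x
    obtain ⟨y, rfl⟩ : ∃ y, K y = x := ⟨K⁻¹ x, papply_inv _ _⟩
    simp only [Equiv.Perm.mul_apply, tr_apply]
    rw [pinv_apply, hKx, hKx, h2]; ring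
  rw [this]
  exact Cm_half

theorem Cm.of_main_inv {E : Equiv.Perm ℝ} (hE : E ∈ Pd 1) (h1 : ∀ x, E x < x + 1) {x : ℝ}
    (h2 : x + 1 < E (E x)) : Cm E := by
  apply Cm.inv
  apply Cm.of_mul_tr (k := 1)
  have hEiP := (Pd 1).inv_mem hE
  have hval : ∀ y, (E⁻¹ * tr ((1 : ℤ) : ℝ)) y = E⁻¹ y + 1 := by
    intro y
    rw [Equiv.Perm.mul_apply, tr_apply, Int.cast_one, hEiP.2]
  refine Cm.of_main (x₀ := E (E x)) ((Pd 1).mul_mem hEiP (tr_mem_Pr _)) ?_ ?_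
  · rw [hval, pinv_apply]
    exact h1 (E x)
  · rw [hval, hval, pinv_apply, hEiP.2, pinv_apply]
    linarith

/-- Every periodic diffeomorphism is a commutator up to an integral translation. -/
theorem Cm_all {F : Equiv.Perm ℝ} (hF : F ∈ Pd 1) : Cm F := by
  have mF := Dg.strictMono hF.1
  -- a point where `F x - x` is an integer
  by_cases hfix : ∃ (x : ℝ) (k : ℤ), F x = x + k
  · obtain ⟨x, k, hx⟩ := hfix
    apply Cm.of_mul_tr (k := -k)
    apply Cm.of_fixed ((Pd 1).mul_mem hF (tr_mem_Pr _)) (a := x)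
    rw [Equiv.Perm.mul_apply, tr_apply]
    have := Pd.per_int hF (-k) x
    rw [mul_one] at this
    rw [this, hx]; push_cast; ring
  push Not at hfix
  -- normalise so that `x < F x < x + 1`
  set m : ℤ := ⌊F 0⌋ with hm
  have cF := Dg.continuous hF.1
  have hlow : ∀ x, x + m < F x := by
    intro x
    by_contra hcon
    push Not at hcon
    have h0 : (0:ℝ) ≤ F 0 - 0 - m := by
      have := Int.floor_le (F 0)
      rw [← hm] at this; linarith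
    have hx : F x - x - m ≤ 0 := by linarith
    have hcont : Continuous fun x => F x - x - m := by fun_prop
    obtain ⟨y, hy⟩ := mem_range_of_exists_le_of_exists_ge hcont ⟨x, hx⟩ ⟨0, h0⟩
    exact hfix y m (by simp only at hy; linarith)
  have hhigh : ∀ x, F x < x + m + 1 := by
    intro x
    by_contra hcon
    push Not at hcon
    have h0 : F 0 - 0 - m - 1 ≤ 0 := by
      have := Int.lt_floor_add_one (F 0)
      rw [← hm] at this; linarith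
    have hx : 0 ≤ F x - x - m - 1 := by linarith
    have hcont : Continuous fun x => F x - x - m - 1 := by fun_prop
    obtain ⟨y, hy⟩ := mem_range_of_exists_le_of_exists_ge hcont ⟨0, h0⟩ ⟨x, hx⟩
    exact hfix y (m + 1) (by simp only at hy; push_cast; linarith)
  apply Cm.of_mul_tr (k := -m)
  set E : Equiv.Perm ℝ := F * tr ((-m : ℤ) : ℝ) with hE
  have hEP : E ∈ Pd 1 := (Pd 1).mul_mem hF (tr_mem_Pr _)
  have hEx : ∀ x, E x = F x - m := by
    intro x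
    rw [hE, Equiv.Perm.mul_apply, tr_apply]
    have := Pd.per_int hF (-m) x
    rw [mul_one] at this
    rw [this]; push_cast; ring
  have mE := Dg.strictMono hEP.1
  have hE1 : ∀ x, x < E x := fun x => by rw [hEx]; linarith [hlow x]
  have hE2 : ∀ x, E x < x + 1 := fun x => by rw [hEx]; linarith [hhigh x]
  by_cases c1 : ∃ x, E (E x) < x + 1
  · obtain ⟨x, hx⟩ := c1
    exact Cm.of_main hEP (hE1 x) hx
  push Not at c1
  by_cases c2 : ∃ x, x + 1 < E (E x)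
  · obtain ⟨x, hx⟩ := c2
    exact Cm.of_main_inv hEP hE2 hx
  · push Not at c2
    exact Cm.of_involution hEP (fun x => le_antisymm (c2 x) (c1 x))

/-- The hypothesis of the interface lemma. -/
theorem main_line (F : Equiv.Perm ℝ) (hF : F ∈ Dg) (hFp : ∀ x, F (x + 1) = F x + 1) :
    ∃ G ∈ Dg, ∃ K ∈ Dg, (∀ x, G (x + 1) = G x + 1) ∧ (∀ x, K (x + 1) = K x + 1) ∧
      ∃ k : ℤ, ∀ x, F (K (G x)) = G (K x) + k := by
  obtain ⟨C, hC, H, hH, k, e⟩ := Cm_all (F := F) ⟨hF, hFp⟩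
  refine ⟨C, hC.1, H, hH.1, hC.2, hH.2, k, fun x => ?_⟩
  have hcP : ⁅C, H⁆ ∈ Pd 1 := by
    rw [commutatorElement_def]
    exact (Pd 1).mul_mem ((Pd 1).mul_mem ((Pd 1).mul_mem hC hH) ((Pd 1).inv_mem hC))
      ((Pd 1).inv_mem hH)
  have h1 := Pd.per_int hcP k (H (C x))
  rw [mul_one] at h1
  rw [e, Equiv.Perm.mul_apply, tr_apply, h1, commutatorElement_def]
  simp only [Equiv.Perm.mul_apply]
  rw [pinv_apply, pinv_apply]

end W4ec
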